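import Pool.Agent.Helper79.GT.St5

/-! # Project GT, module TX4: calls of the kind 4 -/

set_option autoImplicit false

namespace Pool.Agent.Helper97.GT

open Pool.Agent.Helper79.GT Pool.Agent.Helper79.GS Pool.Agent.Helper19.SK Pool.Agent.Helper73.DC Finset
open scoped Classical

private theorem b01_le (p : Prop) : b01 p ≤ 1 := by
  unfold b01
  split_ifs <;> omega

private theorem b01_one (p : Prop) : b01 p = 1 ↔ p := by
  unfold b01
  split_ifs with h
  · exact ⟨fun _ => h, fun _ => rfl⟩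
  · exact ⟨fun h' => absurd h' (by norm_num), fun h' => absurd h' h⟩

private theorem b01_congr (p q : Prop) (h : p ↔ q) : b01 p = b01 q := by
  rw [propext h]

private theorem rec_ex (I : ℕ) (f : ℕ → ℕ → ℕ) (y : ℕ → ℕ) (hI : I = 0)
    (hf : ∀ j a, f j a = b01 (a = 1 ∨ y j ≠ 0)) (J : ℕ) :
    (Nat.rec (motive := fun _ => ℕ) I f J) = b01 (∃ i < J, y i ≠ 0) := by
  induction J with
  | zero =>
    show I = _
    rw [hI]
    unfold b01
    rw [if_neg]
    rintro ⟨i, hi, _⟩
    omega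
  | succ J ih =>
    show f J (Nat.rec (motive := fun _ => ℕ) I f J) = _
    rw [ih, hf]
    apply b01_congr
    rw [b01_one]
    constructor
    · rintro (⟨i, hi, h⟩ | h)
      · exact ⟨i, by omega, h⟩
      · exact ⟨J, by omega, h⟩
    · rintro ⟨i, hi, h⟩
      by_cases hJ : i = J
      · rw [hJ] at h
        exact Or.inr h
      · exact Or.inl ⟨i, by omega, h⟩

private theorem toNat_ne (v : ℤ) (q : ℕ) (hq : 0 < q) :
    (v % (q : ℤ)).toNat ≠ 0 ↔ ¬ ((q : ℤ) ∣ v) := by
  have h0 := Int.emod_nonneg v (Int.natCast_ne_zero.2 hq.ne')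
  rw [Int.dvd_iff_emod_eq_zero]
  constructor
  · intro h h'
    rw [h'] at h
    exact h rfl
  · intro h h'
    apply h
    have := Int.toNat_of_nonneg h0
    rw [h'] at this
    exact this.symm

private theorem s_lt (x : ℕ) : x < (x + 1) * (x + 2) := by
  nlinarith

private theorem t_lt (x : ℕ) : x * (x + 2) + x < (x + 1) * (x + 2) := by
  nlinarith

private theorem xq_pos (L j : ℕ) : 0 < xq L j := by
  unfold xq
  exact Nat.succ_pos _

set_option maxHeartbeats 1000000 in
theorem hTX4 (hBNX : StBNX) (hFLX : StFLX) (hARX : StARX) (hCRI : StCRI) :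
    Pool.Agent.Helper79.GT.StTX4 := by
  intro X hX w r c a b u k m fl d s t x hOk
  obtain ⟨B2, B3, B4, B5, B6, B7, B8, B9, B10, B11, B12, B13, B14, B15, B16, B17, B18, B19⟩ :=
    hBNX X hX w
  obtain ⟨_, _, _, hF⟩ := hFLX X hX w
  obtain ⟨⟨f0, f1, f2, f3, f4, f5, f6, f7, f8, f9, f10, f11, f12⟩, fz, fV, fr, _⟩ :=
    hF 4 r c a b u k m fl d s t x hOk
  obtain ⟨o1, o2, o3, o4, o5, o6, o7, o8, o9, o10, o11, o12, o13, o14, o15, o16⟩ := hOk
  have hPh : PhX X (NN X.e w) w ≤ NN X.e w := by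
    refine le_trans ?_ B4
    calc PhX X (NN X.e w) w = PhX X (NN X.e w) w ^ 1 := (pow_one _).symm
      _ ≤ PhX X (NN X.e w) w ^ 14 := Nat.pow_le_pow_right (by omega) (by norm_num)
  have hN1 : 1 < NN X.e w := by omega
  -- the functions of the call
  have eIni : IniX X (NN X.e w) w (zzX X (NN X.e w) w 4 r c a b u k m fl d s t x) = 0 := by
    unfold IniX
    rw [f0, if_neg (by norm_num)]
  have eLen : LenX X (NN X.e w) w (zzX X (NN X.e w) w 4 r c a b u k m fl d s t x) =
      Xb (LX X w) := by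
    unfold LenX
    rw [f0, if_neg (by norm_num), if_neg (by norm_num), if_neg (by norm_num), if_pos rfl, B10]
  have eDel : ∀ j, DelX X (NN X.e w) w (zzX X (NN X.e w) w 4 r c a b u k m fl d s t x) j =
      zzX X (NN X.e w) w 5 r c a b u k m fl (LX X w + 1) (2 ^ LX X w)
        (2 ^ LX X w * (2 ^ LX X w + 2) + 2 ^ LX X w) j := by
    intro j
    unfold DelX
    rw [f0, if_neg (by norm_num), if_neg (by norm_num), if_neg (by norm_num), if_pos rfl,
      f1, f2, f3, f4, f5, f6, f7, f8]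
    unfold del4X
    rw [B7]
  have eStp : ∀ j a' y, StpX X (NN X.e w) w (zzX X (NN X.e w) w 4 r c a b u k m fl d s t x) j a' y =
      b01 (a' = 1 ∨ y ≠ 0) := by
    intro j a' y
    unfold StpX
    rw [f0, if_neg (by norm_num), if_neg (by norm_num), if_neg (by norm_num), if_pos rfl]
    rfl
  have eOut : ∀ a', OutX X (NN X.e w) w (zzX X (NN X.e w) w 4 r c a b u k m fl d s t x) a' =
      b01 (a' = 1) := by
    intro a'
    unfold OutX
    rw [f0, if_neg (by norm_num), if_neg (by norm_num)]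
  -- the calls are valid
  have hk : k ≤ X.S w := o9 (by norm_num)
  have hpos : 0 < 2 ^ LX X w := by positivity
  have hOk5 : ∀ j < Xb (LX X w), OkFX X w 5 r c a b u k m fl (LX X w + 1) (2 ^ LX X w)
      (2 ^ LX X w * (2 ^ LX X w + 2) + 2 ^ LX X w) j := by
    intro j hj
    refine ⟨by norm_num, by norm_num, o3, o4, o5, o6, o7, o8, fun _ => hk, o10, o11, le_rfl, ?_,
      ?_, hj, fun h => absurd h (by norm_num)⟩
    · exact s_lt _
    · exact t_lt _
  refine ⟨?_, ?_, ?_, ?_, ?_⟩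
  · rw [eIni]
    omega
  · rw [eLen]
    omega
  · intro j hj
    rw [eLen] at hj
    rw [eDel j]
    obtain ⟨_, _, _, gr, gOk⟩ := hF 5 r c a b u k m fl (LX X w + 1) (2 ^ LX X w)
      (2 ^ LX X w * (2 ^ LX X w + 2) + 2 ^ LX X w) j (hOk5 j hj)
    refine ⟨gOk, ?_, ?_⟩
    · rw [gr, fr]
      unfold rkFX
      simp only [show (5 : ℕ) ≠ 0 by norm_num, show (5 : ℕ) ≠ 1 by norm_num,
        show (5 : ℕ) ≠ 2 by norm_num, show (5 : ℕ) ≠ 3 by norm_num, show (5 : ℕ) ≠ 4 by norm_num,
        show (4 : ℕ) ≠ 0 by norm_num, show (4 : ℕ) ≠ 1 by norm_num,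
        show (4 : ℕ) ≠ 2 by norm_num, show (4 : ℕ) ≠ 3 by norm_num, if_false, if_true]
      omega
    · intro a' _ y _
      rw [eStp]
      have := b01_le (a' = 1 ∨ y ≠ 0)
      omega
  · intro a' _
    rw [eOut]
    have := b01_le (a' = 1)
    omega
  · rw [eOut, eLen, fV]
    have hrec := rec_ex (IniX X (NN X.e w) w (zzX X (NN X.e w) w 4 r c a b u k m fl d s t x))
      (fun j a' => StpX X (NN X.e w) w (zzX X (NN X.e w) w 4 r c a b u k m fl d s t x) j a'
        (ValX X w (DelX X (NN X.e w) w (zzX X (NN X.e w) w 4 r c a b u k m fl d s t x) j)))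
      (fun j => ValX X w (DelX X (NN X.e w) w (zzX X (NN X.e w) w 4 r c a b u k m fl d s t x) j)) eIni
      (fun j a' => eStp j a' _) (Xb (LX X w))
    rw [hrec]
    have hV4 : ValFX X w 4 r c a b u k m fl d s t x = b01 (Mat (GX X w r c a b u k fl) m) := by
      unfold ValFX
      rw [if_neg (by norm_num), if_neg (by norm_num), if_neg (by norm_num), if_pos rfl]
    rw [hV4]
    apply b01_congr
    rw [b01_one]
    have hGW : ∀ i j, GX X w r c a b u k fl i j →
        i < 2 ^ X.K w ∧ j < 2 ^ X.K w := by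
      intro i j hij
      have hGr : GrS (AX X w) (ENs (AX X w) X.sk (HX X w) r) (VX X w c a b) (cB c)
          (XkS (AX X w) (ENs (AX X w) X.sk (HX X w) r) (VX X w c a b) (cB c) k) u i j := by
        unfold GX at hij
        by_cases hfl : fl = 1
        · rw [if_pos hfl] at hij
          exact hij.2
        · rw [if_neg hfl] at hij
          exact hij
      have hrv : (AX X w).mv (cB c) i j := hGr.2.2.1.1
      obtain ⟨_, h1, _, _, _, _, _, h2, _⟩ := hARX X hX w c i j o4
      exact h2 (h1.1 hrv)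
    have hcri := hCRI (LX X w) (2 ^ X.K w) m (GX X w r c a b u k fl) hGW o10 B6
    rw [hcri]
    have hval : ∀ j < Xb (LX X w),
        (ValX X w (DelX X (NN X.e w) w (zzX X (NN X.e w) w 4 r c a b u k m fl d s t x) j) ≠ 0 ↔
        ¬ ((xq (LX X w) j : ℤ) ∣ trP (2 ^ LX X w)
          (aM (LX X w) (padE (GX X w r c a b u k fl) (2 ^ X.K w) m) j) (LX X w + 1)
          (2 ^ LX X w) (2 ^ LX X w * (2 ^ LX X w + 2) + 2 ^ LX X w))) := by
      intro j hj
      rw [eDel j]
      obtain ⟨_, _, gV, _, _⟩ := hF 5 r c a b u k m fl (LX X w + 1) (2 ^ LX X w)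
        (2 ^ LX X w * (2 ^ LX X w + 2) + 2 ^ LX X w) j (hOk5 j hj)
      rw [gV]
      have hV5 : ValFX X w 5 r c a b u k m fl (LX X w + 1) (2 ^ LX X w)
          (2 ^ LX X w * (2 ^ LX X w + 2) + 2 ^ LX X w) j =
          (trP (2 ^ LX X w) (aM (LX X w) (padE (GX X w r c a b u k fl)
            (2 ^ X.K w) m) j) (LX X w + 1) (2 ^ LX X w)
            (2 ^ LX X w * (2 ^ LX X w + 2) + 2 ^ LX X w) %
            (xq (LX X w) j : ℤ)).toNat := by
        unfold ValFX
        rw [if_neg (by norm_num), if_neg (by norm_num), if_neg (by norm_num),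
          if_neg (by norm_num), if_pos rfl]
      rw [hV5]
      exact toNat_ne _ _ (xq_pos _ _)
    constructor
    · rintro ⟨j, hj, h⟩
      exact ⟨j, hj, (hval j hj).2 h⟩
    · rintro ⟨j, hj, h⟩
      exact ⟨j, hj, (hval j hj).1 h⟩

end Pool.Agent.Helper97.GT
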